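import Pool.Agent.helper75.VM.Bridge

/-!
# Intersections of homoclinic classes of sectional-Anosov flows (MP_509a24_an, Q1)

For every sectional-Anosov flow on a compact 3-manifold (possibly with boundary), in particular
for every Venice mask, the intersection of two different homoclinic classes is contained in the
closure of the union of the unstable manifolds of the singularities.
-/

namespace Pool.Agent.Results.MP_509a24_an.ClosureOfWuSing

universe u

theorem result : SecAn.SectionalAnosovStatement.{u} :=
  SecAn.sectionalAnosovStatement

end Pool.Agent.Results.MP_509a24_an.ClosureOfWuSing
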